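import Pool.Agent.X219.PK.Final

/-! `lim * PK_N` is Weihrauch reducible to `PK`. -/

set_option autoImplicit false

open Pool.Agent.X219.CB Pool.Agent.X219.PK

namespace Pool.Agent.Results.MP_a7e1fe_lc.LimKernel

/-- Every composition `f ∘ g` with `f ≤ lim` and `g ≤ PK_N` is Weihrauch reducible to `PK`; that
is, the compositional product `lim * PK_N` (the maximum of the degrees of these compositions) is
Weihrauch reducible to `PK`. -/
theorem result (f g : Problem) (hf : WLE f limP) (hg : WLE g PKN) : WLE (compose f g) PKT :=
  reduce hf hg

end Pool.Agent.Results.MP_a7e1fe_lc.LimKernel
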